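import Mathlib

set_option autoImplicit false
set_option linter.unusedVariables false

/-!
# Inserting empty lines does not preserve boundedness of interval-minor classes

Counterexample: `F = {D₅, Q}` where `D₅` is the `5 × 5` identity matrix and `Q` is the `6 × 5`
matrix with ones at `(1,1),(2,2),(3,4),(4,3),(5,4),(6,5)`; `F⁺ = {D₅⁺, Q}` where `D₅⁺` has one
empty row and one empty column inserted after the first row and column of `D₅`.
-/

namespace Pool.Agent.Results.MP_5adcc8_co.InsertingLines

open Finset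

/-- Binary matrices with `m` rows and `n` columns. -/
abbrev Mat (m n : ℕ) : Type := Fin m → Fin n → Bool

/-- Merge the adjacent rows `i` and `i+1` (entrywise maximum). -/
def rowMerge {m n : ℕ} (M : Mat (m + 1) n) (i : Fin m) : Mat m n := fun a b =>
  if a < i then M a.castSucc b
  else if a = i then M a.castSucc b || M a.succ b
  else M a.succ b

/-- Merge the adjacent columns `j` and `j+1` (entrywise maximum). -/
def colMerge {m n : ℕ} (M : Mat m (n + 1)) (j : Fin n) : Mat m n := fun a b =>
  if b < j then M a b.castSucc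
  else if b = j then M a b.castSucc || M a b.succ
  else M a b.succ

/-- `Reduces M N`: some sequence of row and column contractions turns `M` into `N`. -/
inductive Reduces {m n : ℕ} (M : Mat m n) : ∀ {k l : ℕ}, Mat k l → Prop
  | refl : Reduces M M
  | row {k l : ℕ} {N : Mat (k + 1) l} (i : Fin k) : Reduces M N → Reduces M (rowMerge N i)
  | col {k l : ℕ} {N : Mat k (l + 1)} (j : Fin l) : Reduces M N → Reduces M (colMerge N j)

/-- `P` is an interval minor of `M`: some sequence of contractions turns `M` into a matrix of the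
size of `P` having a one wherever `P` has a one. -/
def IntervalMinor {k l m n : ℕ} (P : Mat k l) (M : Mat m n) : Prop :=
  ∃ N : Mat k l, Reduces M N ∧ ∀ i j, P i j = true → N i j = true

/-- A binary matrix of any size. -/
structure BM where
  m : ℕ
  n : ℕ
  e : Mat m n

/-- The class of matrices avoiding every member of `F`. -/
def Av (F : Set BM) : Set BM := {M | ∀ P ∈ F, ¬ IntervalMinor P.e M.e}

/-- `M` with the entry `(i,j)` changed to 1. -/
def setOne {m n : ℕ} (M : Mat m n) (i : Fin m) (j : Fin n) : Mat m n := fun a b =>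
  if a = i ∧ b = j then true else M a b

/-- `M` is critical for the class `C`. -/
def Critical (C : Set BM) (M : BM) : Prop :=
  M ∈ C ∧ ∀ i j, M.e i j = false → (⟨M.m, M.n, setOne M.e i j⟩ : BM) ∉ C

/-- The number of 0-runs of a line: the number of positions with entry 0 which are the first
position or are preceded by an entry 1. -/
def zeroRuns {n : ℕ} (v : Fin n → Bool) : ℕ :=
  (univ.filter fun j : Fin n => v j = false ∧ ∀ j' : Fin n, j'.1 + 1 = j.1 → v j' = true).card

/-- Finite row-complexity. -/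
def RowBounded (C : Set BM) : Prop :=
  ∃ B : ℕ, ∀ M : BM, Critical C M → ∀ i, zeroRuns (M.e i) ≤ B

/-- Finite column-complexity. -/
def ColBounded (C : Set BM) : Prop :=
  ∃ B : ℕ, ∀ M : BM, Critical C M → ∀ j, zeroRuns (fun i => M.e i j) ≤ B

/-- Bounded classes. -/
def Bounded (C : Set BM) : Prop := RowBounded C ∧ ColBounded C

/-- `P'` is obtained from `P` by inserting empty rows and columns at arbitrary positions. -/
def Inserts (P P' : BM) : Prop :=
  ∃ (f : Fin P.m ↪o Fin P'.m) (g : Fin P.n ↪o Fin P'.n),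
    (∀ i j, P'.e (f i) (g j) = P.e i j) ∧
    (∀ a b, P'.e a b = true → ∃ i j, f i = a ∧ g j = b)

/-! ### Contractions and interval partitions -/

/-- push forward along maps of rows and columns -/
def push {m n k l : ℕ} (f : Fin m → Fin k) (g : Fin n → Fin l) (M : Mat m n) : Mat k l :=
  fun i j => decide (∃ a b, f a = i ∧ g b = j ∧ M a b = true)

lemma push_iff {m n k l : ℕ} (f : Fin m → Fin k) (g : Fin n → Fin l) (M : Mat m n) (i : Fin k)
    (j : Fin l) : push f g M i j = true ↔ ∃ a b, f a = i ∧ g b = j ∧ M a b = true := by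
  simp only [push, decide_eq_true_eq]

lemma bool_ext {a b : Bool} (h : a = true ↔ b = true) : a = b := by
  cases a <;> cases b <;> simp_all

lemma rowMerge_eq {m n : ℕ} (M : Mat (m + 1) n) (i : Fin m) :
    rowMerge M i = push (Fin.predAbove i) id M := by
  funext a b
  apply bool_ext
  rw [push_iff]
  unfold rowMerge
  constructor
  · intro h
    split_ifs at h with h1 h2
    · exact ⟨a.castSucc, b, by rw [Fin.predAbove_of_le_castSucc]; simp; exact
        Fin.castSucc_le_castSucc_iff.2 h1.le, rfl, h⟩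
    · subst h2
      rw [Bool.or_eq_true] at h
      rcases h with h | h
      · exact ⟨a.castSucc, b, by simp, rfl, h⟩
      · exact ⟨a.succ, b, by simp, rfl, h⟩
    · have : i < a := lt_of_le_of_ne (not_lt.1 h1) (Ne.symm h2)
      refine ⟨a.succ, b, ?_, rfl, h⟩
      rw [Fin.predAbove_of_castSucc_lt]
      · simp
      · exact (Fin.castSucc_lt_castSucc_iff.2 this).trans Fin.castSucc_lt_succ
  · rintro ⟨a', b', h1, rfl, h⟩
    simp only [id_eq]
    rcases le_or_gt a' i.castSucc with h2 | h2
    · rw [Fin.predAbove_of_le_castSucc _ _ h2] at h1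
      subst h1
      have h3 : (a'.castPred (Fin.ne_last_of_lt (lt_of_le_of_lt h2 (Fin.castSucc_lt_last i)))).castSucc = a' :=
        Fin.castSucc_castPred _ _
      rcases h2.lt_or_eq with h4 | h4
      · rw [if_pos]
        · rw [h3]; exact h
        · rw [← Fin.castSucc_lt_castSucc_iff, h3]; exact h4
      · subst h4
        simp [h]
    · rw [Fin.predAbove_of_castSucc_lt _ _ h2] at h1
      subst h1
      have h3 : (a'.pred (Fin.ne_zero_of_lt h2)).succ = a' := Fin.succ_pred _ _
      have h5 : i ≤ a'.pred (Fin.ne_zero_of_lt h2) := by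
        have h2' : i.1 < a'.1 := h2
        rw [Fin.le_def, Fin.val_pred]
        omega
      rw [if_neg (not_lt.2 h5)]
      split_ifs with h6
      · rw [h3, h]; simp
      · rw [h3]; exact h

lemma colMerge_eq {m n : ℕ} (M : Mat m (n + 1)) (j : Fin n) :
    colMerge M j = push id (Fin.predAbove j) M := by
  have h := rowMerge_eq (fun b a => M a b) j
  funext a b
  have h1 := congrFun (congrFun h b) a
  have h2 : rowMerge (fun b a => M a b) j b a = colMerge M j a b := rfl
  rw [← h2, h1]
  apply bool_ext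
  rw [push_iff, push_iff]
  constructor
  · rintro ⟨a', b', h1, h2, h3⟩; exact ⟨b', a', h2, h1, h3⟩
  · rintro ⟨a', b', h1, h2, h3⟩; exact ⟨b', a', h2, h1, h3⟩

lemma push_push {m n k l k' l' : ℕ} (f : Fin m → Fin k) (g : Fin n → Fin l)
    (f' : Fin k → Fin k') (g' : Fin l → Fin l') (M : Mat m n) :
    push f' g' (push f g M) = push (f' ∘ f) (g' ∘ g) M := by
  funext i j
  apply bool_ext
  rw [push_iff, push_iff]
  constructor
  · rintro ⟨a, b, h1, h2, h3⟩
    rw [push_iff] at h3
    obtain ⟨a', b', h4, h5, h6⟩ := h3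
    exact ⟨a', b', by simp [h4, h1], by simp [h5, h2], h6⟩
  · rintro ⟨a, b, h1, h2, h3⟩
    exact ⟨f a, g b, h1, h2, (push_iff _ _ _ _ _).2 ⟨a, b, rfl, rfl, h3⟩⟩

lemma push_id {m n : ℕ} (M : Mat m n) : push id id M = M := by
  funext i j
  apply bool_ext
  rw [push_iff]
  constructor
  · rintro ⟨a, b, h1, h2, h3⟩
    simp only [id_eq] at h1 h2
    rw [← h1, ← h2]; exact h3
  · intro h
    exact ⟨i, j, rfl, rfl, h⟩

lemma predAbove_mono' {m : ℕ} (i : Fin m) : Monotone (Fin.predAbove i) :=
  Fin.predAbove_right_monotone i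

lemma predAbove_surj {m : ℕ} (i : Fin m) : Function.Surjective (Fin.predAbove i) :=
  Fin.predAbove_surjective i

/-- Contraction sequences give interval partitions. -/
lemma Reduces.exists_push {m n k l : ℕ} {M : Mat m n} {N : Mat k l} (h : Reduces M N) :
    ∃ (f : Fin m → Fin k) (g : Fin n → Fin l), Monotone f ∧ Function.Surjective f ∧ Monotone g ∧
      Function.Surjective g ∧ N = push f g M := by
  induction h with
  | refl =>
    exact ⟨id, id, monotone_id, Function.surjective_id, monotone_id, Function.surjective_id,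
      (push_id M).symm⟩
  | row i _ ih =>
    obtain ⟨f, g, h1, h2, h3, h4, rfl⟩ := ih
    refine ⟨Fin.predAbove i ∘ f, g, (predAbove_mono' i).comp h1, (predAbove_surj i).comp h2, h3,
      h4, ?_⟩
    rw [rowMerge_eq, push_push]; rfl
  | col j _ ih =>
    obtain ⟨f, g, h1, h2, h3, h4, rfl⟩ := ih
    refine ⟨f, Fin.predAbove j ∘ g, h1, h2, (predAbove_mono' j).comp h3,
      (predAbove_surj j).comp h4, ?_⟩
    rw [colMerge_eq, push_push]; rfl

lemma Reduces.trans {m n k l k' l' : ℕ} {M : Mat m n} {N : Mat k l} {K : Mat k' l'}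
    (h1 : Reduces M N) (h2 : Reduces N K) : Reduces M K := by
  induction h2 with
  | refl => exact h1
  | row i _ ih => exact Reduces.row i ih
  | col j _ ih => exact Reduces.col j ih

/-- a monotone surjection which is not injective factors through some `predAbove`. -/
lemma factor {m k : ℕ} (f : Fin (m + 1) → Fin k) (hf : Monotone f) (hs : Function.Surjective f)
    (hk : k < m + 1) : ∃ (i : Fin m) (f' : Fin m → Fin k), Monotone f' ∧ Function.Surjective f' ∧
      f = f' ∘ Fin.predAbove i := by
  have h1 : ∃ i : Fin m, f i.castSucc = f i.succ := by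
    by_contra hcon
    push Not at hcon
    have hmono : StrictMono f := by
      rw [Fin.strictMono_iff_lt_succ]
      intro i
      exact lt_of_le_of_ne (hf (Fin.castSucc_lt_succ).le) (hcon i)
    have := Fintype.card_le_of_injective f hmono.injective
    simp at this
    omega
  obtain ⟨i, hi⟩ := h1
  refine ⟨i, fun a => f (i.castSucc.succAbove a), ?_, ?_, ?_⟩
  · intro a b hab
    exact hf ((Fin.strictMono_succAbove _).monotone hab)
  · intro c
    obtain ⟨a, rfl⟩ := hs c
    by_cases h : a = i.castSucc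
    · refine ⟨i, ?_⟩
      show f (i.castSucc.succAbove i) = f a
      rw [h, Fin.succAbove_castSucc_self, hi]
    · obtain ⟨b, hb⟩ := Fin.exists_succAbove_eq h
      exact ⟨b, by show f (i.castSucc.succAbove b) = f a; rw [hb]⟩
  · funext a
    show f a = f (i.castSucc.succAbove (i.predAbove a))
    by_cases h : a = i.castSucc
    · subst h
      rw [Fin.predAbove_castSucc_self, Fin.succAbove_castSucc_self, hi]
    · rw [Fin.succAbove_predAbove h]

/-- Interval partitions of the rows come from contraction sequences. -/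
lemma reduces_rows {m n k : ℕ} (M : Mat m n) (f : Fin m → Fin k) (hf : Monotone f)
    (hs : Function.Surjective f) : Reduces M (push f id M) := by
  induction m generalizing k with
  | zero =>
    have hk : k = 0 := by
      by_contra h
      obtain ⟨a, _⟩ := hs ⟨0, Nat.pos_of_ne_zero h⟩
      exact a.elim0
    subst hk
    have : push f id M = M := by funext i; exact i.elim0
    rw [this]
    exact Reduces.refl
  | succ m ih =>
    by_cases hk : k < m + 1
    · obtain ⟨i, f', h1, h2, rfl⟩ := factor f hf hs hk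
      have h3 := ih (rowMerge M i) f' h1 h2
      have h4 : Reduces M (rowMerge M i) := Reduces.row i Reduces.refl
      have h5 := h4.trans h3
      rw [rowMerge_eq, push_push] at h5
      exact h5
    · have hcard : k = m + 1 := by
        have := Fintype.card_le_of_surjective f hs
        simp at this
        omega
      subst hcard
      have hinj : Function.Injective f := Finite.injective_iff_surjective.2 hs
      have hst : StrictMono f := hf.strictMono_of_injective hinj
      have hid : f = id := by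
        have := Subsingleton.elim (StrictMono.orderIsoOfSurjective f hst hs)
          (OrderIso.refl (Fin (m + 1)))
        funext a
        exact congrArg (fun e : Fin (m + 1) ≃o Fin (m + 1) => e a) this
      rw [hid, push_id]
      exact Reduces.refl

lemma reduces_cols {m n l : ℕ} (M : Mat m n) (g : Fin n → Fin l) (hg : Monotone g)
    (hs : Function.Surjective g) : Reduces M (push id g M) := by
  induction n generalizing l with
  | zero =>
    have hk : l = 0 := by
      by_contra h
      obtain ⟨a, _⟩ := hs ⟨0, Nat.pos_of_ne_zero h⟩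
      exact a.elim0
    subst hk
    have : push id g M = M := by funext i j; exact j.elim0
    rw [this]
    exact Reduces.refl
  | succ m ih =>
    by_cases hk : l < m + 1
    · obtain ⟨i, f', h1, h2, rfl⟩ := factor g hg hs hk
      have h3 := ih (colMerge M i) f' h1 h2
      have h4 : Reduces M (colMerge M i) := Reduces.col i Reduces.refl
      have h5 := h4.trans h3
      rw [colMerge_eq, push_push] at h5
      exact h5
    · have hcard : l = m + 1 := by
        have := Fintype.card_le_of_surjective g hs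
        simp at this
        omega
      subst hcard
      have hinj : Function.Injective g := Finite.injective_iff_surjective.2 hs
      have hst : StrictMono g := hg.strictMono_of_injective hinj
      have hid : g = id := by
        have := Subsingleton.elim (StrictMono.orderIsoOfSurjective g hst hs)
          (OrderIso.refl (Fin (m + 1)))
        funext a
        exact congrArg (fun e : Fin (m + 1) ≃o Fin (m + 1) => e a) this
      rw [hid, push_id]
      exact Reduces.refl

/-- Interval minors in terms of interval partitions of the rows and columns. -/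
theorem intervalMinor_iff {k l m n : ℕ} (P : Mat k l) (M : Mat m n) :
    IntervalMinor P M ↔ ∃ (f : Fin m → Fin k) (g : Fin n → Fin l), Monotone f ∧
      Function.Surjective f ∧ Monotone g ∧ Function.Surjective g ∧
      ∀ i j, P i j = true → ∃ a b, f a = i ∧ g b = j ∧ M a b = true := by
  constructor
  · rintro ⟨N, h1, h2⟩
    obtain ⟨f, g, hf, hf', hg, hg', rfl⟩ := h1.exists_push
    exact ⟨f, g, hf, hf', hg, hg', fun i j h => (push_iff _ _ _ _ _).1 (h2 i j h)⟩
  · rintro ⟨f, g, hf, hf', hg, hg', h⟩
    refine ⟨push f g M, ?_, fun i j hij => (push_iff _ _ _ _ _).2 (h i j hij)⟩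
    have h1 := (reduces_rows M f hf hf').trans (reduces_cols (push f id M) g hg hg')
    rw [push_push] at h1
    exact h1


/-! ### Placements -/

lemma exists_level {k m : ℕ} (x : Fin (k + 1) → Fin m) (hx : StrictMono x) :
    ∃ f : Fin m → Fin (k + 1), Monotone f ∧ Function.Surjective f ∧ ∀ i, f (x i) = i := by
  have hle : ∀ a : Fin m, (univ.filter fun j : Fin k => x j.succ ≤ a).card < k + 1 := by
    intro a
    have := Finset.card_filter_le (univ : Finset (Fin k)) (fun j => x j.succ ≤ a)
    simp at this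
    omega
  have key : ∀ i : Fin (k + 1), (univ.filter fun j : Fin k => x j.succ ≤ x i).card = i.1 := by
    intro i
    have h1 : (univ.filter fun j : Fin k => x j.succ ≤ x i) =
        univ.filter fun j : Fin k => j.1 < i.1 := by
      ext j
      simp only [Finset.mem_filter, Finset.mem_univ, true_and, hx.le_iff_le]
      rw [Fin.le_def, Fin.val_succ]
      omega
    rw [h1]
    rw [Fin.card_filter_val_lt]
    omega
  refine ⟨fun a => ⟨_, hle a⟩, ?_, ?_, ?_⟩
  · intro a b hab
    show (univ.filter fun j : Fin k => x j.succ ≤ a).card ≤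
      (univ.filter fun j : Fin k => x j.succ ≤ b).card
    apply Finset.card_le_card
    intro j hj
    simp only [Finset.mem_filter, Finset.mem_univ, true_and] at hj ⊢
    exact hj.trans hab
  · intro i
    exact ⟨x i, Fin.ext (key i)⟩
  · intro i
    exact Fin.ext (key i)

lemma of_submatrix {k l m n : ℕ} (P : Mat (k + 1) (l + 1)) (M : Mat m n)
    (x : Fin (k + 1) → Fin m) (y : Fin (l + 1) → Fin n) (hx : StrictMono x) (hy : StrictMono y)
    (h : ∀ i j, P i j = true → M (x i) (y j) = true) : IntervalMinor P M := by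
  rw [intervalMinor_iff]
  obtain ⟨f, hf1, hf2, hf3⟩ := exists_level x hx
  obtain ⟨g, hg1, hg2, hg3⟩ := exists_level y hy
  exact ⟨f, g, hf1, hf2, hg1, hg2, fun i j hij => ⟨x i, y j, hf3 i, hg3 j, h i j hij⟩⟩

lemma IntervalMinor.mono {k l m n : ℕ} {P : Mat k l} {M M' : Mat m n} (h : IntervalMinor P M)
    (hM : ∀ i j, M i j = true → M' i j = true) : IntervalMinor P M' := by
  rw [intervalMinor_iff] at h ⊢
  obtain ⟨f, g, h1, h2, h3, h4, h5⟩ := h
  refine ⟨f, g, h1, h2, h3, h4, fun i j hij => ?_⟩
  obtain ⟨a, b, ha, hb, hab⟩ := h5 i j hij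
  exact ⟨a, b, ha, hb, hM _ _ hab⟩

/-! ### The patterns -/

/-- The `5 × 5` identity matrix. -/
def D5e : Mat 5 5 := fun i j => decide (i = j)

/-- The `5 × 5` identity matrix. -/
def D5 : BM := ⟨5, 5, D5e⟩

/-- The `5 × 5` identity matrix with an empty row inserted between its first two rows and an empty
column inserted between its first two columns. -/
def D5pe : Mat 6 6 :=
  ![![true, false, false, false, false, false],
    ![false, false, false, false, false, false],
    ![false, false, true, false, false, false],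
    ![false, false, false, true, false, false],
    ![false, false, false, false, true, false],
    ![false, false, false, false, false, true]]

/-- The pattern `D5pe` as a matrix of any size. -/
def D5plus : BM := ⟨6, 6, D5pe⟩

/-- The second pattern. -/
def Qe : Mat 6 5 :=
  ![![true, false, false, false, false],
    ![false, true, false, false, false],
    ![false, false, false, true, false],
    ![false, false, true, false, false],
    ![false, false, false, true, false],
    ![false, false, false, false, true]]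

/-- The second pattern. -/
def Q : BM := ⟨6, 5, Qe⟩

/-- Five ones in increasing rows and columns. -/
def Chain {m n : ℕ} (M : Mat m n) : Prop :=
  ∃ (a : Fin 5 → Fin m) (b : Fin 5 → Fin n), StrictMono a ∧ StrictMono b ∧
    ∀ j, M (a j) (b j) = true

lemma D5_iff {m n : ℕ} (M : Mat m n) : IntervalMinor D5e M ↔ Chain M := by
  constructor
  · intro h
    rw [intervalMinor_iff] at h
    obtain ⟨f, g, h1, _, h3, _, h5⟩ := h
    have h6 : ∀ j : Fin 5, ∃ a b, f a = j ∧ g b = j ∧ M a b = true :=
      fun j => h5 j j (by show decide (j = j) = true; simp)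
    choose a b ha hb hab using h6
    refine ⟨a, b, ?_, ?_, hab⟩
    · intro i j hij
      apply h1.reflect_lt
      rw [ha, ha]; exact hij
    · intro i j hij
      apply h3.reflect_lt
      rw [hb, hb]; exact hij
  · rintro ⟨a, b, ha, hb, hab⟩
    refine of_submatrix (k := 4) (l := 4) D5e M a b ha hb ?_
    intro i j hij
    have : i = j := by
      have h : decide (i = j) = true := hij
      simpa using h
    subst this
    exact hab i

lemma Q_chain {m n : ℕ} (M : Mat m n) (h : IntervalMinor Qe M) : Chain M := by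
  rw [intervalMinor_iff] at h
  obtain ⟨f, g, h1, _, h3, _, h5⟩ := h
  obtain ⟨a0, b0, ha0, hb0, e0⟩ := h5 0 0 rfl
  obtain ⟨a1, b1, ha1, hb1, e1⟩ := h5 1 1 rfl
  obtain ⟨a2, b2, ha2, hb2, e2⟩ := h5 3 2 rfl
  obtain ⟨a3, b3, ha3, hb3, e3⟩ := h5 4 3 rfl
  obtain ⟨a4, b4, ha4, hb4, e4⟩ := h5 5 4 rfl
  refine ⟨![a0, a1, a2, a3, a4], ![b0, b1, b2, b3, b4], ?_, ?_, ?_⟩
  · rw [Fin.strictMono_iff_lt_succ]
    intro i
    fin_cases i
    · show a0 < a1
      apply h1.reflect_lt; rw [ha0, ha1]; decide
    · show a1 < a2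
      apply h1.reflect_lt; rw [ha1, ha2]; decide
    · show a2 < a3
      apply h1.reflect_lt; rw [ha2, ha3]; decide
    · show a3 < a4
      apply h1.reflect_lt; rw [ha3, ha4]; decide
  · rw [Fin.strictMono_iff_lt_succ]
    intro i
    fin_cases i
    · show b0 < b1
      apply h3.reflect_lt; rw [hb0, hb1]; decide
    · show b1 < b2
      apply h3.reflect_lt; rw [hb1, hb2]; decide
    · show b2 < b3
      apply h3.reflect_lt; rw [hb2, hb3]; decide
    · show b3 < b4
      apply h3.reflect_lt; rw [hb3, hb4]; decide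
  · intro j
    fin_cases j
    · exact e0
    · exact e1
    · exact e2
    · exact e3
    · exact e4

/-! ### `Av {D5, Q}` is bounded -/

lemma row_runs {m n : ℕ} (M : Mat m n) (hno : ¬ Chain M)
    (hcrit : ∀ i j, M i j = false → Chain (setOne M i j)) (r : Fin m) : zeroRuns (M r) ≤ 5 := by
  classical
  have h1 : ∀ c : Fin n, M r c = false → ∃ i : Fin 5, ∃ (a : Fin 5 → Fin m) (b : Fin 5 → Fin n),
      StrictMono a ∧ StrictMono b ∧ a i = r ∧ b i = c ∧ ∀ j, j ≠ i → M (a j) (b j) = true := by
    intro c hc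
    obtain ⟨a, b, ha, hb, hab⟩ := hcrit r c hc
    by_cases hex : ∃ i, a i = r ∧ b i = c
    · obtain ⟨i, hi1, hi2⟩ := hex
      refine ⟨i, a, b, ha, hb, hi1, hi2, fun j hj => ?_⟩
      have := hab j
      unfold setOne at this
      rw [if_neg] at this
      · exact this
      · rintro ⟨h, _⟩
        exact hj (ha.injective (h.trans hi1.symm))
    · push Not at hex
      exfalso
      apply hno
      refine ⟨a, b, ha, hb, fun j => ?_⟩
      have := hab j
      unfold setOne at this
      rw [if_neg] at this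
      · exact this
      · rintro ⟨h, h'⟩
        exact hex j h h'
  have h2 : ∀ (i : Fin 5) (c c' c'' : Fin n) (a a' : Fin 5 → Fin m) (b b' : Fin 5 → Fin n),
      StrictMono a → StrictMono b → a i = r → b i = c → (∀ j, j ≠ i → M (a j) (b j) = true) →
      StrictMono a' → StrictMono b' → a' i = r → b' i = c' →
      (∀ j, j ≠ i → M (a' j) (b' j) = true) → c ≤ c'' → c'' ≤ c' → M r c'' = true → False := by
    intro i c c' c'' a a' b b' ha hb hai hbi hab ha' hb' hai' hbi' hab' hc hc' hM
    apply hno
    refine ⟨fun j => if j < i then a j else a' j,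
      fun j => if j < i then b j else if j = i then c'' else b' j, ?_, ?_, ?_⟩
    · intro j j' hjj'
      show (if j < i then a j else a' j) < (if j' < i then a j' else a' j')
      split_ifs with h3 h4 h4
      · exact ha hjj'
      · calc a j < a i := ha h3
          _ = a' i := by rw [hai, hai']
          _ ≤ a' j' := ha'.monotone (not_lt.1 h4)
      · exact absurd (hjj'.trans h4) h3
      · exact ha' hjj'
    · intro j j' hjj'
      show (if j < i then b j else if j = i then c'' else b' j) <
        (if j' < i then b j' else if j' = i then c'' else b' j')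
      rcases lt_trichotomy j i with h3 | h3 | h3
      · rw [if_pos h3]
        have h5 : b j < c'' := lt_of_lt_of_le (by rw [← hbi]; exact hb h3) hc
        rcases lt_trichotomy j' i with h4 | h4 | h4
        · rw [if_pos h4]; exact hb hjj'
        · rw [if_neg (by rw [h4]; exact lt_irrefl _), if_pos h4]; exact h5
        · rw [if_neg h4.not_gt, if_neg h4.ne']
          refine h5.trans (lt_of_le_of_lt hc' ?_)
          rw [← hbi']; exact hb' h4
      · have h4 : i < j' := by rw [← h3]; exact hjj'
        rw [if_neg (by rw [h3]; exact lt_irrefl _), if_pos h3, if_neg h4.not_gt, if_neg h4.ne']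
        refine lt_of_le_of_lt hc' ?_
        rw [← hbi']; exact hb' h4
      · have h4 : i < j' := h3.trans hjj'
        rw [if_neg h3.not_gt, if_neg h3.ne', if_neg h4.not_gt, if_neg h4.ne']
        exact hb' hjj'
    · intro j
      show M (if j < i then a j else a' j) (if j < i then b j else if j = i then c'' else b' j) = true
      rcases lt_trichotomy j i with h3 | h3 | h3
      · rw [if_pos h3, if_pos h3]; exact hab j h3.ne
      · have h4 : ¬ j < i := by rw [h3]; exact lt_irrefl _
        rw [if_neg h4, if_neg h4, if_pos h3, h3, hai']; exact hM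
      · rw [if_neg h3.not_gt, if_neg h3.not_gt, if_neg h3.ne']; exact hab' j h3.ne'
  -- types of zeros
  let ty : Fin n → Fin 5 := fun c => if h : M r c = false then (h1 c h).choose else 0
  have hty : ∀ c, M r c = false → ∃ (a : Fin 5 → Fin m) (b : Fin 5 → Fin n),
      StrictMono a ∧ StrictMono b ∧ a (ty c) = r ∧ b (ty c) = c ∧
      ∀ j, j ≠ ty c → M (a j) (b j) = true := by
    intro c hc
    have h3 : ty c = (h1 c hc).choose := by simp only [ty, dif_pos hc]
    rw [h3]
    exact (h1 c hc).choose_spec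
  have key : ∀ c c' : Fin n, M r c = false → M r c' = false →
      (∀ j' : Fin n, j'.1 + 1 = c'.1 → M r j' = true) → ty c = ty c' → c < c' → False := by
    intro c c' hc hc' hstart hcc hlt
    obtain ⟨a, b, ha, hb, hai, hbi, hab⟩ := hty c hc
    obtain ⟨a', b', ha', hb', hai', hbi', hab'⟩ := hty c' hc'
    rw [← hcc] at hai' hbi' hab'
    have hlt' : c.1 < c'.1 := hlt
    have hc'' : c'.1 - 1 < n := by omega
    have hone := hstart ⟨c'.1 - 1, hc''⟩ (by show c'.1 - 1 + 1 = c'.1; omega)
    exact h2 (ty c) c c' ⟨c'.1 - 1, hc''⟩ a a' b b' ha hb hai hbi hab ha' hb' hai' hbi' hab'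
      (by rw [Fin.le_def]; show c.1 ≤ c'.1 - 1; omega)
      (by rw [Fin.le_def]; show c'.1 - 1 ≤ c'.1; omega) hone
  have hcard : zeroRuns (M r) ≤ (univ : Finset (Fin 5)).card := by
    unfold zeroRuns
    apply Finset.card_le_card_of_injOn ty (by intro _ _; simp)
    intro c hc c' hc' h
    simp only [Finset.coe_filter, Finset.mem_univ, true_and, Set.mem_ofPred_eq] at hc hc'
    by_contra hne
    rcases lt_or_gt_of_ne hne with h3 | h3
    · exact key c c' hc.1 hc'.1 hc'.2 h h3
    · exact key c' c hc'.1 hc.1 hc.2 h.symm h3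
  simpa using hcard

lemma chain_transpose {m n : ℕ} (M : Mat m n) : Chain (fun b a => M a b) ↔ Chain M := by
  constructor
  · rintro ⟨a, b, ha, hb, h⟩; exact ⟨b, a, hb, ha, h⟩
  · rintro ⟨a, b, ha, hb, h⟩; exact ⟨b, a, hb, ha, h⟩

lemma mem_Av_F (M : BM) : M ∈ Av {D5, Q} ↔ ¬ Chain M.e := by
  constructor
  · intro h hc
    exact h D5 (by simp) ((D5_iff _).2 hc)
  · intro h P hP hM
    rcases hP with rfl | hP
    · exact h ((D5_iff _).1 hM)
    · rw [Set.mem_singleton_iff] at hP
      subst hP
      exact h (Q_chain _ hM)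

theorem bounded_F : Bounded (Av {D5, Q}) := by
  constructor
  · refine ⟨5, fun M hM i => ?_⟩
    apply row_runs
    · exact (mem_Av_F M).1 hM.1
    · intro a b hab
      have := hM.2 a b hab
      rw [mem_Av_F, not_not] at this
      exact this
  · refine ⟨5, fun M hM j => ?_⟩
    apply row_runs (fun b a => M.e a b)
    · rw [chain_transpose]
      exact (mem_Av_F M).1 hM.1
    · intro b a hab
      have := hM.2 a b hab
      rw [mem_Av_F, not_not] at this
      have h2 : setOne (fun b a => M.e a b) b a = fun b' a' => setOne M.e a b a' b' := by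
        funext b' a'
        unfold setOne
        by_cases h1 : a' = a <;> by_cases h2 : b' = b <;> simp [h1, h2]
      rw [h2, chain_transpose]
      exact this

/-! ### `Av {D5plus, Q}` is not column-bounded -/

/-- maximal extensions -/
lemma exists_critical (C : Set BM) (M : BM) (hM : M ∈ C) : ∃ e : Mat M.m M.n,
    (∀ i j, M.e i j = true → e i j = true) ∧ Critical C ⟨M.m, M.n, e⟩ := by
  classical
  let S : Set (Mat M.m M.n) := {e | (∀ i j, M.e i j = true → e i j = true) ∧
    (⟨M.m, M.n, e⟩ : BM) ∈ C}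
  have hne : S.Nonempty := ⟨M.e, fun _ _ h => h, hM⟩
  let w : Mat M.m M.n → ℕ := fun e =>
    (univ.filter fun p : Fin M.m × Fin M.n => e p.1 p.2 = true).card
  obtain ⟨e, he, hmax⟩ := Set.exists_max_image S w (Set.toFinite S) hne
  refine ⟨e, he.1, he.2, ?_⟩
  intro i j hij hcon
  have h1 : setOne e i j ∈ S := by
    refine ⟨fun a b hab => ?_, hcon⟩
    unfold setOne
    split_ifs
    · rfl
    · exact he.1 a b hab
  have h2 := hmax _ h1
  have h3 : w e < w (setOne e i j) := by
    apply Finset.card_lt_card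
    rw [Finset.ssubset_iff_of_subset]
    · refine ⟨(i, j), ?_, ?_⟩
      · simp [setOne]
      · simpa using hij
    · intro p hp
      simp only [Finset.mem_filter, Finset.mem_univ, true_and] at hp ⊢
      unfold setOne
      split_ifs
      · rfl
      · exact hp
  omega

/-- The predicate describing the ones of the example. -/
def isOne (t a b : ℕ) : Prop :=
  (a = 0 ∧ b = 0) ∨ (a = 1 ∧ b = 1) ∨ (2 ≤ a ∧ b = 2 ∧ a % 2 = 0) ∨
  (2 ≤ a ∧ 3 ≤ b ∧ a % 2 = 0 ∧ (2 * b + a = 2 * t + 8 ∨ 2 * b + a = 2 * t + 10)) ∨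
  (2 ≤ a ∧ 3 ≤ b ∧ 2 * b + a = 2 * t + 13)

instance (t a b : ℕ) : Decidable (isOne t a b) := by unfold isOne; infer_instance

/-- The example. -/
def Mt (t : ℕ) : BM := ⟨2 * t + 4, t + 5, fun a b => decide (isOne t a.1 b.1)⟩

lemma Mt_iff (t : ℕ) (a : Fin (2 * t + 4)) (b : Fin (t + 5)) :
    (Mt t).e a b = true ↔ isOne t a.1 b.1 := by
  show decide (isOne t a.1 b.1) = true ↔ _
  rw [decide_eq_true_eq]

lemma no_chain4 (t a₁ b₁ a₂ b₂ a₃ b₃ a₄ b₄ : ℕ) (h1 : isOne t a₁ b₁) (h2 : isOne t a₂ b₂)
    (h3 : isOne t a₃ b₃) (h4 : isOne t a₄ b₄) (ha : 2 ≤ a₁) (hb : 2 ≤ b₁) (h12 : a₁ < a₂)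
    (h23 : a₂ < a₃) (h34 : a₃ < a₄) (k12 : b₁ < b₂) (k23 : b₂ < b₃) (k34 : b₃ < b₄) : False := by
  unfold isOne at *
  omega

lemma no_P (t x α w δ y β z γ : ℕ) (h1 : isOne t x α) (h2 : isOne t w δ)
    (h3 : isOne t y β) (h4 : isOne t z γ) (hx : 2 ≤ x) (hδ : 2 ≤ δ) (h12 : x < w)
    (h23 : w < y) (h34 : y < z) (k12 : δ < α) (k23 : δ < β) (k34 : α < γ) (k35 : β < γ) :
    False := by
  unfold isOne at *
  omega


lemma Mt_no_D5plus (t : ℕ) : ¬ IntervalMinor D5pe (Mt t).e := by
  intro h
  rw [intervalMinor_iff] at h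
  obtain ⟨f, g, h1, h1', h3, h3', h5⟩ := h
  obtain ⟨a0, b0, ha0, hb0, e0⟩ := h5 0 0 rfl
  obtain ⟨a1, b1, ha1, hb1, e1⟩ := h5 2 2 rfl
  obtain ⟨a2, b2, ha2, hb2, e2⟩ := h5 3 3 rfl
  obtain ⟨a3, b3, ha3, hb3, e3⟩ := h5 4 4 rfl
  obtain ⟨a4, b4, ha4, hb4, e4⟩ := h5 5 5 rfl
  obtain ⟨a', ha'⟩ := h1' 1
  obtain ⟨b', hb'⟩ := h3' 1
  have i1 : a0 < a' := by apply h1.reflect_lt; rw [ha0, ha']; decide
  have i2 : a' < a1 := by apply h1.reflect_lt; rw [ha', ha1]; decide
  have i3 : a1 < a2 := by apply h1.reflect_lt; rw [ha1, ha2]; decide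
  have i4 : a2 < a3 := by apply h1.reflect_lt; rw [ha2, ha3]; decide
  have i5 : a3 < a4 := by apply h1.reflect_lt; rw [ha3, ha4]; decide
  have j1 : b0 < b' := by apply h3.reflect_lt; rw [hb0, hb']; decide
  have j2 : b' < b1 := by apply h3.reflect_lt; rw [hb', hb1]; decide
  have j3 : b1 < b2 := by apply h3.reflect_lt; rw [hb1, hb2]; decide
  have j4 : b2 < b3 := by apply h3.reflect_lt; rw [hb2, hb3]; decide
  have j5 : b3 < b4 := by apply h3.reflect_lt; rw [hb3, hb4]; decide
  rw [Fin.lt_def] at i1 i2 i3 i4 i5 j1 j2 j3 j4 j5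
  exact no_chain4 t a1.1 b1.1 a2.1 b2.1 a3.1 b3.1 a4.1 b4.1 ((Mt_iff t a1 b1).1 e1)
    ((Mt_iff t a2 b2).1 e2) ((Mt_iff t a3 b3).1 e3) ((Mt_iff t a4 b4).1 e4)
    (by omega) (by omega) i3 i4 i5 j3 j4 j5

lemma Mt_no_Q (t : ℕ) : ¬ IntervalMinor Qe (Mt t).e := by
  intro h
  rw [intervalMinor_iff] at h
  obtain ⟨f, g, h1, h1', h3, h3', h5⟩ := h
  obtain ⟨a0, b0, ha0, hb0, e0⟩ := h5 0 0 rfl
  obtain ⟨a1, b1, ha1, hb1, e1⟩ := h5 1 1 rfl
  obtain ⟨x, α, hx, hα, e2⟩ := h5 2 3 rfl
  obtain ⟨w, δ, hw, hδ, e3⟩ := h5 3 2 rfl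
  obtain ⟨y, β, hy, hβ, e4⟩ := h5 4 3 rfl
  obtain ⟨z, γ, hz, hγ, e5⟩ := h5 5 4 rfl
  have i1 : a0 < a1 := by apply h1.reflect_lt; rw [ha0, ha1]; decide
  have i2 : a1 < x := by apply h1.reflect_lt; rw [hx, ha1]; decide
  have i3 : x < w := by apply h1.reflect_lt; rw [hx, hw]; decide
  have i4 : w < y := by apply h1.reflect_lt; rw [hw, hy]; decide
  have i5 : y < z := by apply h1.reflect_lt; rw [hy, hz]; decide
  have j1 : b0 < b1 := by apply h3.reflect_lt; rw [hb0, hb1]; decide
  have j2 : b1 < δ := by apply h3.reflect_lt; rw [hb1, hδ]; decide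
  have j3 : δ < α := by apply h3.reflect_lt; rw [hδ, hα]; decide
  have j4 : δ < β := by apply h3.reflect_lt; rw [hδ, hβ]; decide
  have j5 : α < γ := by apply h3.reflect_lt; rw [hα, hγ]; decide
  have j6 : β < γ := by apply h3.reflect_lt; rw [hβ, hγ]; decide
  rw [Fin.lt_def] at i1 i2 i3 i4 i5 j1 j2 j3 j4 j5 j6
  exact no_P t x.1 α.1 w.1 δ.1 y.1 β.1 z.1 γ.1 ((Mt_iff t x α).1 e2)
    ((Mt_iff t w δ).1 e3) ((Mt_iff t y β).1 e4) ((Mt_iff t z γ).1 e5)
    (by omega) (by omega) i3 i4 i5 j3 j4 j5 j6

lemma Mt_mem (t : ℕ) : Mt t ∈ Av {D5plus, Q} := by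
  intro P hP hM
  rcases hP with rfl | hP
  · exact Mt_no_D5plus t hM
  · rw [Set.mem_singleton_iff] at hP
    subst hP
    exact Mt_no_Q t hM

/-- Filling one of the zeros of column 2 creates `Q`. -/
lemma flip_Q (t i : ℕ) (hi : i < t) (e : Mat (2 * t + 4) (t + 5))
    (he : ∀ a b, (Mt t).e a b = true → e a b = true)
    (h : e ⟨2 * i + 3, by omega⟩ ⟨2, by omega⟩ = true) : IntervalMinor Qe e := by
  have hx : StrictMono (![⟨0, by omega⟩, ⟨1, by omega⟩, ⟨2 * i + 2, by omega⟩,
      ⟨2 * i + 3, by omega⟩, ⟨2 * i + 4, by omega⟩, ⟨2 * i + 5, by omega⟩] :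
      Fin 6 → Fin (2 * t + 4)) := by
    rw [Fin.strictMono_iff_lt_succ]
    intro j
    fin_cases j
    · show (0 : ℕ) < 1; omega
    · show (1 : ℕ) < 2 * i + 2; omega
    · show 2 * i + 2 < 2 * i + 3; omega
    · show 2 * i + 3 < 2 * i + 4; omega
    · show 2 * i + 4 < 2 * i + 5; omega
  have hy : StrictMono (![⟨0, by omega⟩, ⟨1, by omega⟩, ⟨2, by omega⟩,
      ⟨t + 3 - i, by omega⟩, ⟨t + 4 - i, by omega⟩] : Fin 5 → Fin (t + 5)) := by
    rw [Fin.strictMono_iff_lt_succ]
    intro j
    fin_cases j
    · show (0 : ℕ) < 1; omega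
    · show (1 : ℕ) < 2; omega
    · show 2 < t + 3 - i; omega
    · show t + 3 - i < t + 4 - i; omega
  refine of_submatrix (k := 5) (l := 4) Qe e _ _ hx hy ?_
  intro a b hab
  have key : (a = 0 ∧ b = 0) ∨ (a = 1 ∧ b = 1) ∨ (a = 2 ∧ b = 3) ∨ (a = 3 ∧ b = 2) ∨
      (a = 4 ∧ b = 3) ∨ (a = 5 ∧ b = 4) := by
    revert a b
    decide
  rcases key with ⟨rfl, rfl⟩ | ⟨rfl, rfl⟩ | ⟨rfl, rfl⟩ | ⟨rfl, rfl⟩ | ⟨rfl, rfl⟩ | ⟨rfl, rfl⟩
  · apply he
    rw [Mt_iff]
    exact Or.inl ⟨rfl, rfl⟩
  · apply he
    rw [Mt_iff]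
    exact Or.inr (Or.inl ⟨rfl, rfl⟩)
  · apply he
    rw [Mt_iff]
    show isOne t (2 * i + 2) (t + 3 - i)
    unfold isOne
    omega
  · exact h
  · apply he
    rw [Mt_iff]
    show isOne t (2 * i + 4) (t + 3 - i)
    unfold isOne
    omega
  · apply he
    rw [Mt_iff]
    show isOne t (2 * i + 5) (t + 4 - i)
    unfold isOne
    omega

lemma many_runs (t : ℕ) (e : Mat (2 * t + 4) (t + 5))
    (he : ∀ a b, (Mt t).e a b = true → e a b = true) (hnoQ : ¬ IntervalMinor Qe e) :
    t ≤ zeroRuns (fun i => e i ⟨2, by omega⟩) := by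
  unfold zeroRuns
  have h3 : (univ : Finset (Fin t)).card ≤ (univ.filter fun j : Fin (2 * t + 4) =>
      e j ⟨2, by omega⟩ = false ∧ ∀ j' : Fin (2 * t + 4), j'.1 + 1 = j.1 →
        e j' ⟨2, by omega⟩ = true).card := by
    apply Finset.card_le_card_of_injOn
      (fun i => (⟨2 * i.1 + 3, by omega⟩ : Fin (2 * t + 4)))
    · intro i _
      simp only [Finset.coe_filter, Finset.mem_univ, true_and, Set.mem_ofPred_eq]
      constructor
      · by_contra hcon
        rw [Bool.not_eq_false] at hcon
        exact hnoQ (flip_Q t i.1 i.2 e he hcon)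
      · intro j' hj'
        apply he
        have h5 : j'.1 = 2 * i.1 + 2 := by omega
        rw [Mt_iff]
        show isOne t j'.1 2
        rw [h5]
        unfold isOne
        omega
    · intro i _ j _ hij
      have := congrArg Fin.val hij
      apply Fin.ext
      have h6 : 2 * i.1 + 3 = 2 * j.1 + 3 := this
      omega
  simpa using h3

theorem not_colBounded_Fplus : ¬ ColBounded (Av {D5plus, Q}) := by
  rintro ⟨B, hB⟩
  obtain ⟨e, he, hcrit⟩ := exists_critical _ (Mt (B + 1)) (Mt_mem (B + 1))
  have h1 := hB _ hcrit ⟨2, by show 2 < B + 1 + 5; omega⟩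
  have hnoQ : ¬ IntervalMinor Qe e := hcrit.1 Q (by simp)
  have h2 := many_runs (B + 1) e he hnoQ
  have h4 : B + 1 ≤ B := h2.trans h1
  omega

/-! ### The result -/

lemma inserts_D5 : Inserts D5 D5plus := by
  refine ⟨Fin.succAboveOrderEmb (1 : Fin 6), Fin.succAboveOrderEmb (1 : Fin 6), ?_, ?_⟩
  · show ∀ i j : Fin 5, D5pe ((1 : Fin 6).succAbove i) ((1 : Fin 6).succAbove j) = D5e i j
    decide
  · show ∀ a b : Fin 6, D5pe a b = true → ∃ i j : Fin 5, (1 : Fin 6).succAbove i = a ∧
      (1 : Fin 6).succAbove j = b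
    decide

lemma inserts_refl (P : BM) : Inserts P P :=
  ⟨(OrderIso.refl _).toOrderEmbedding, (OrderIso.refl _).toOrderEmbedding, fun _ _ => rfl,
    fun a b _ => ⟨a, b, rfl, rfl⟩⟩

/-- The statement asked about in Q1. -/
def Q1 : Prop :=
  ∀ (F : Set BM) (φ : BM → BM), (∀ P ∈ F, Inserts P (φ P)) →
    (Bounded (Av (φ '' F)) ↔ Bounded (Av F))

/-- Q1 fails. The counterexample is `F = {D5, Q}` and `F⁺ = {D5plus, Q}`, with the empty lines
inserted in the interior: `Av F` is bounded and `Av F⁺` is not column-bounded. -/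
theorem result :
    ¬ Q1 ∧ Inserts D5 D5plus ∧ Bounded (Av {D5, Q}) ∧ ¬ ColBounded (Av {D5plus, Q}) := by
  classical
  refine ⟨?_, inserts_D5, bounded_F, not_colBounded_Fplus⟩
  intro h
  have hne : Q ≠ D5 := by
    intro h
    have := congrArg BM.m h
    exact absurd this (by decide)
  have himg : (fun P => if P = D5 then D5plus else P) '' ({D5, Q} : Set BM) = {D5plus, Q} := by
    rw [Set.image_pair]
    simp [hne]
  have h1 := h {D5, Q} (fun P => if P = D5 then D5plus else P) (by
    intro P hP
    rcases hP with rfl | hP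
    · show Inserts D5 (if D5 = D5 then D5plus else D5)
      rw [if_pos rfl]; exact inserts_D5
    · rw [Set.mem_singleton_iff] at hP
      subst hP
      show Inserts Q (if Q = D5 then D5plus else Q)
      rw [if_neg hne]; exact inserts_refl Q)
  rw [himg] at h1
  exact not_colBounded_Fplus (h1.2 bounded_F).2

end Pool.Agent.Results.MP_5adcc8_co.InsertingLines
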